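import Mathlib
import Pool.Agent.TH444.ML.Done

/-!
# Malle's conjecture for the wreath products `C₂ ≀ (A ≀ S_m)`

`A` is any finite group and `m ≥ ((3 |A| + 2)!) ^ 3`; the group `H = A ≀ S_m` acts on itself by
multiplication, and `G = C₂ ≀ H` acts on `H × {0, 1}`. Over every number field `k` the number of
`G`-extensions of `k` with discriminant of norm at most `B` is asymptotic to `c B`.
-/

set_option autoImplicit false

open Filter
open Pool.Agent.TH444.TW (Cls)
open Pool.Agent.H391R2 (Wr)

namespace Pool.Agent.Results.MP_a3214d_nt.WreathOfOrderTwo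

/-- `G ≤ S_n` is, up to a bijection `f` of `{1, ..., n}` with `H × {0, 1}`, the wreath product
`C₂ ≀ H`: it consists of all permutations `π` for which there is `h ∈ H` such that `π` maps the block
`{x} × {0, 1}` to the block `{h x} × {0, 1}`, for all `x ∈ H`. -/
def IsC2Wreath (H : Type) [Group H] {n : ℕ} (G : Subgroup (Equiv.Perm (Fin n))) : Prop :=
  ∃ f : Fin n ≃ H × Bool, ∀ π : Equiv.Perm (Fin n), π ∈ G ↔ ∃ h : H, ∀ i, (f (π i)).1 = h * (f i).1

/-- The Galois group of `M/k`, acting on the embeddings of `M`, is `G`, up to numbering. -/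
def HasGroup (k : Type) [Field k] {n : ℕ} (G : Subgroup (Equiv.Perm (Fin n)))
    (M : IntermediateField k (AlgebraicClosure k)) : Prop :=
  ∃ e : (M →ₐ[k] AlgebraicClosure k) ≃ Fin n, ∀ π : Equiv.Perm (Fin n),
    π ∈ G ↔ ∃ σ : AlgebraicClosure k ≃ₐ[k] AlgebraicClosure k,
      ∀ φ : M →ₐ[k] AlgebraicClosure k, e (σ.toAlgHom.comp φ) = π (e φ)

/-- The relative discriminant of `M/k`, of degree `n`, has norm at most `B`; that is,
`|d_M| ≤ B |d_k| ^ n`. -/
def DiscLe (k : Type) [Field k] [NumberField k] (n : ℕ) (B : ℝ)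
    (M : IntermediateField k (AlgebraicClosure k)) : Prop :=
  ∃ h : NumberField M,
    ((|@NumberField.discr M _ h| : ℤ) : ℝ) ≤ B * ((|NumberField.discr k| : ℤ) : ℝ) ^ n

/-- The fields `M` between `k` and its algebraic closure which are counted: `M/k` has degree `n`,
Galois group `G` and relative discriminant of norm at most `B`. -/
def Ext (k : Type) [Field k] [NumberField k] (n : ℕ) (G : Subgroup (Equiv.Perm (Fin n)))
    (B : ℝ) : Type :=
  {M : IntermediateField k (AlgebraicClosure k) //
    Module.finrank k M = n ∧ HasGroup k G M ∧ DiscLe k n B M}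

/-- `N(k, G; B)`: the number of extensions of `k` of degree `n`, up to isomorphism over `k`, whose
Galois group is `G` and whose relative discriminant has norm at most `B`. -/
noncomputable def N (k : Type) [Field k] [NumberField k] (n : ℕ)
    (G : Subgroup (Equiv.Perm (Fin n))) (B : ℝ) : ℕ :=
  Nat.card (Quot (fun L L' : Ext k n G B => Nonempty (L.1 ≃ₐ[k] L'.1)))

/-- Malle's conjecture for `(k, G)` with the exponents `a` and `b`: for some `c > 0`,
`N(k, G; B) ~ c B ^ a (log B) ^ (b - 1)`. -/
def Malle (k : Type) [Field k] [NumberField k] (n : ℕ) (G : Subgroup (Equiv.Perm (Fin n)))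
    (a : ℝ) (b : ℕ) : Prop :=
  ∃ c : ℝ, 0 < c ∧ Asymptotics.IsEquivalent atTop (fun B : ℝ => (N k n G B : ℝ))
    (fun B : ℝ => c * B ^ a * Real.log B ^ (b - 1))

theorem of_data (k : Type) [Field k] [NumberField k] (H : Type) [Group H] [Finite H]
    (h2 : 2 ≤ Nat.card H) (U : Subgroup H) (hU : U.normalCore = ⊥)
    (hc : 8 * U.index * (U.index + 1) ≤ Nat.card H)
    (hne : (Pool.Agent.TH444.ML.Gal k (AlgebraicClosure k) H).Nonempty) (n : ℕ)
    (G : Subgroup (Equiv.Perm (Fin n))) (hG : IsC2Wreath H G) : Malle k n G 1 1 := by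
  obtain ⟨c, hc0, hlim⟩ :=
    Pool.Agent.TH444.ML.asymp_iso Pool.Agent.TH444.ML.rest k H h2 U hU hc hne G hG
  refine ⟨c, hc0, ?_⟩
  have h1 : (fun B : ℝ => c * B ^ (1 : ℝ) * Real.log B ^ (1 - 1)) = fun B : ℝ => c * B := by
    funext B; simp
  rw [h1, Asymptotics.isEquivalent_iff_tendsto_one]
  · have h3 := hlim.div_const c
    rw [div_self hc0.ne'] at h3
    refine h3.congr' ?_
    filter_upwards [eventually_gt_atTop (0 : ℝ)] with B hB
    simp only [Pi.div_apply]
    rw [div_div, mul_comm B c]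
    rfl
  · filter_upwards [eventually_gt_atTop (0 : ℝ)] with B hB
    intro h
    exact absurd h (by positivity)

end Pool.Agent.Results.MP_a3214d_nt.WreathOfOrderTwo

open Pool.Agent.Results.MP_a3214d_nt.WreathOfOrderTwo in
/-- Malle's conjecture holds, with `a = b = 1`, for `C₂ ≀ (A ≀ S_m)` over every number field `k`
(first part), and more generally for `C₂ ≀ H` whenever `H` is the top of a finite tower of steps in
the class `Cls k` over a finite Galois extension `L/k` and `H` has a subgroup of index `u`, with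
trivial normal core, `8 u (u + 1) ≤ |H|` (second part). -/
theorem Pool.Agent.Results.MP_a3214d_nt.WreathOfOrderTwo.result :
    (∀ (A : Type) [Group A] [Finite A] (m : ℕ), ((3 * Nat.card A + 2).factorial) ^ 3 ≤ m →
      ∀ (n : ℕ) (G : Subgroup (Equiv.Perm (Fin n))), IsC2Wreath (Wr A m) G →
      ∀ (k : Type) [Field k] [NumberField k], Malle k n G 1 1) ∧
    (∀ (k L H : Type) [Field k] [NumberField k] [Field L] [Algebra k L] [FiniteDimensional k L]
      [IsGalois k L] [Group H] [Finite H] (p : H →* (L ≃ₐ[k] L)), Cls k p →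
      ∀ U : Subgroup H, U.normalCore = ⊥ → 8 * U.index * (U.index + 1) ≤ Nat.card H →
      ∀ (n : ℕ) (G : Subgroup (Equiv.Perm (Fin n))), IsC2Wreath H G → Malle k n G 1 1) := by
  refine ⟨?_, ?_⟩
  · intro A _ _ m hm n G hG k _ _
    obtain ⟨h2, ⟨U, hU, hc⟩, hne⟩ := Pool.Agent.TH444.ML.wr_data k A m hm
    exact of_data k (Wr A m) h2 U hU hc hne n G hG
  · intro k L H _ _ _ _ _ _ _ _ p hp U hU hc n G hG
    have h1 : 1 ≤ U.index := Nat.one_le_iff_ne_zero.2 Subgroup.index_ne_zero_of_finite
    have h2 : 2 ≤ Nat.card H := by nlinarith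
    exact of_data k H h2 U hU hc
      (Pool.Agent.TH444.ML.gal_nonempty k (AlgebraicClosure k) L H p hp) n G hG
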